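import Pool.Agent.Helper41.LD6.Defs

/-!
# Project LD6, block T3: boxes from exponential integrals
-/

set_option autoImplicit false

namespace Pool.Agent.Helper77.LD6

open Set MeasureTheory
open Pool.Agent.Helper59.RE (e norm_e e_add e_zero continuous_e)
open Pool.Agent.Helper41.LD6 (bx)

theorem prod_sub {ι : Type*} [DecidableEq ι] (I : Finset ι) (f g : ι → ℂ) {d B : ℝ} (hd : 0 ≤ d) (hB : 1 ≤ B)
    (hf : ∀ k ∈ I, ‖f k‖ ≤ 1) (hg : ∀ k ∈ I, ‖g k‖ ≤ B) (h : ∀ k ∈ I, ‖f k - g k‖ ≤ d) :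
    ‖∏ k ∈ I, f k - ∏ k ∈ I, g k‖ ≤ I.card * d * B ^ I.card := by
  induction I using Finset.induction_on with
  | empty => simp
  | insert a s ha ih =>
    have hf' : ∀ k ∈ s, ‖f k‖ ≤ 1 := fun k hk => hf k (Finset.mem_insert_of_mem hk)
    have hg' : ∀ k ∈ s, ‖g k‖ ≤ B := fun k hk => hg k (Finset.mem_insert_of_mem hk)
    have ih' := ih hf' hg' (fun k hk => h k (Finset.mem_insert_of_mem hk))
    rw [Finset.prod_insert ha, Finset.prod_insert ha, Finset.card_insert_of_notMem ha]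
    have hgp : ‖∏ k ∈ s, g k‖ ≤ B ^ s.card := by
      rw [norm_prod]
      calc ∏ k ∈ s, ‖g k‖ ≤ ∏ _k ∈ s, B := Finset.prod_le_prod (fun k _ => norm_nonneg _) hg'
        _ = B ^ s.card := Finset.prod_const _
    have e1 : f a * ∏ k ∈ s, f k - g a * ∏ k ∈ s, g k =
        f a * (∏ k ∈ s, f k - ∏ k ∈ s, g k) + (f a - g a) * ∏ k ∈ s, g k := by ring
    rw [e1]
    have hB0 : 0 ≤ B := by linarith
    have hpow : 0 ≤ B ^ s.card := by positivity
    calc ‖f a * (∏ k ∈ s, f k - ∏ k ∈ s, g k) + (f a - g a) * ∏ k ∈ s, g k‖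
        ≤ ‖f a‖ * ‖∏ k ∈ s, f k - ∏ k ∈ s, g k‖ + ‖f a - g a‖ * ‖∏ k ∈ s, g k‖ := by
          refine (norm_add_le _ _).trans ?_
          rw [norm_mul, norm_mul]
      _ ≤ 1 * (s.card * d * B ^ s.card) + d * B ^ s.card := by
          refine add_le_add (mul_le_mul (hf a (Finset.mem_insert_self a s)) ih' (norm_nonneg _) zero_le_one)
            (mul_le_mul (h a (Finset.mem_insert_self a s)) hgp (norm_nonneg _) hd)
      _ = (s.card + 1) * d * B ^ s.card * 1 := by ring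
      _ ≤ (s.card + 1) * d * B ^ s.card * B := by
          refine mul_le_mul_of_nonneg_left hB ?_
          positivity
      _ = ((s.card + 1 : ℕ) : ℝ) * d * B ^ (s.card + 1) := by push_cast; ring

theorem e_meas {f : ℝ → ℝ} (hf : Measurable f) : Measurable fun x => e (f x) := continuous_e.measurable.comp hf

theorem e_ii {f : ℝ → ℝ} (hf : Measurable f) (p q : ℝ) : IntervalIntegrable (fun x => e (f x)) volume p q := by
  refine ⟨?_, ?_⟩ <;>
  · refine MeasureTheory.Measure.integrableOn_of_bounded (M := 1) (by simp) (e_meas hf).aestronglyMeasurable ?_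
    exact Filter.Eventually.of_forall fun x => (norm_e _).le

theorem e_sum {ι : Type*} (s : Finset ι) (f : ι → ℝ) : e (∑ k ∈ s, f k) = ∏ k ∈ s, e (f k) := by
  classical
  induction s using Finset.induction_on with
  | empty => simp [e_zero]
  | insert a s ha ih => rw [Finset.sum_insert ha, Finset.prod_insert ha, e_add, ih]

/-- the common part of the two bounds -/
theorem core {ι : Type} [DecidableEq ι] (I : Finset ι) (u : ι → ℝ → ℝ) {p q δ ε : ℝ} (hpq : p ≤ q) (hu : ∀ k ∈ I, Measurable (u k))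
    (hδ : 0 < δ) (hδI : I.card * δ ≤ 1 / 4) {N : ℕ} (hε : 0 ≤ ε)
    (hexp : ∀ m : ι → ℤ, (∀ k ∈ I, |m k| ≤ N) → (∃ k ∈ I, m k ≠ 0) → ‖∫ x in p..q, e (∑ k ∈ I, m k * u k x)‖ ≤ ε)
    (g : ι → ℝ → ℝ) (c : ι → ℤ → ℂ) (w : ι → ℝ) (hg : ∀ k ∈ I, Measurable (g k)) (hg1 : ∀ k ∈ I, ∀ y, 0 ≤ g k y ∧ g k y ≤ 1)
    (hgc : ∀ k ∈ I, ∀ y, ‖(g k y : ℂ) - ∑ m ∈ Finset.Icc (-(N : ℤ)) N, c k m * e (m * y)‖ ≤ δ)
    (hc : ∀ k ∈ I, ∀ m, ‖c k m‖ ≤ 1) (hw : ∀ k ∈ I, 0 ≤ w k ∧ w k ≤ 1) (hcw : ∀ k ∈ I, ‖c k 0 - (w k : ℂ)‖ ≤ 2 * δ) :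
    |(∫ x in p..q, ∏ k ∈ I, g k (u k x)) - (q - p) * ∏ k ∈ I, w k| ≤
      8 * I.card * δ * (q - p) + (2 * (N : ℝ) + 1) ^ I.card * ε := by
  -- the trigonometric polynomials
  set P : ι → ℝ → ℂ := fun k y => ∑ m ∈ Finset.Icc (-(N : ℤ)) N, c k m * e (m * y) with hP
  set t : {k // k ∈ I} → Finset ℤ := fun _ => Finset.Icc (-(N : ℤ)) N with ht
  have hexpand : ∀ x, ∏ k ∈ I, P k (u k x) = ∑ n ∈ Fintype.piFinset t, (∏ k : {k // k ∈ I}, c k (n k)) * e (∑ k : {k // k ∈ I}, n k * u k x) := by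
    intro x
    rw [← Finset.prod_coe_sort I (fun k => P k (u k x))]
    simp only [hP]
    rw [Finset.prod_univ_sum]
    refine Finset.sum_congr rfl fun n _ => ?_
    rw [e_sum, ← Finset.prod_mul_distrib]
  have hum : ∀ n : {k // k ∈ I} → ℤ, Measurable fun x => ∑ k : {k // k ∈ I}, (n k : ℝ) * u k x := fun n =>
    Finset.measurable_sum _ fun k _ => (hu k k.2).const_mul _
  -- the integral of the product
  have hint : ∫ x in p..q, ∏ k ∈ I, P k (u k x) =
      ∑ n ∈ Fintype.piFinset t, (∏ k : {k // k ∈ I}, c k (n k)) * ∫ x in p..q, e (∑ k : {k // k ∈ I}, n k * u k x) := by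
    simp only [hexpand]
    rw [intervalIntegral.integral_finsetSum fun n _ => (e_ii (hum n) p q).const_mul _]
    refine Finset.sum_congr rfl fun n _ => ?_
    rw [intervalIntegral.integral_const_mul]
  have hcard : (Fintype.piFinset t).card = (2 * N + 1) ^ I.card := by
    rw [Fintype.card_piFinset]
    simp only [ht, Int.card_Icc, Finset.prod_const, Finset.card_univ, Fintype.card_coe]
    congr 1
    omega
  have h0mem : (fun _ => 0 : {k // k ∈ I} → ℤ) ∈ Fintype.piFinset t := by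
    rw [Fintype.mem_piFinset]
    intro k
    simp [ht]
  have hcn : ∀ n : {k // k ∈ I} → ℤ, ‖∏ k : {k // k ∈ I}, c k (n k)‖ ≤ 1 := by
    intro n
    rw [norm_prod]
    exact Finset.prod_le_one (fun k _ => norm_nonneg _) fun k _ => hc k k.2 _
  have hbig : ‖(∫ x in p..q, ∏ k ∈ I, P k (u k x)) - (q - p) * ∏ k ∈ I, c k 0‖ ≤ (2 * (N : ℝ) + 1) ^ I.card * ε := by
    rw [hint, ← Finset.add_sum_erase _ _ h0mem]
    have e1 : (∏ k : {k // k ∈ I}, c k ((fun _ => 0 : {k // k ∈ I} → ℤ) k)) * (∫ x in p..q, e (∑ k : {k // k ∈ I}, ((fun _ => 0 : {k // k ∈ I} → ℤ) k : ℝ) * u k x)) =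
        (q - p) * ∏ k ∈ I, c k 0 := by
      have e2 : ∀ x, e (∑ k : {k // k ∈ I}, (((fun _ => 0 : {k // k ∈ I} → ℤ) k : ℤ) : ℝ) * u k x) = 1 := by
        intro x
        simp [e_zero]
      simp only [e2]
      rw [intervalIntegral.integral_const, Finset.prod_coe_sort I (fun k => c k 0), mul_comm]
      simp
    rw [e1, add_sub_cancel_left]
    refine (norm_sum_le _ _).trans ?_
    calc ∑ n ∈ (Fintype.piFinset t).erase (fun _ => 0), ‖(∏ k : {k // k ∈ I}, c k (n k)) * ∫ x in p..q, e (∑ k : {k // k ∈ I}, n k * u k x)‖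
        ≤ ∑ n ∈ (Fintype.piFinset t).erase (fun _ => 0), ε := by
          refine Finset.sum_le_sum fun n hn => ?_
          rw [norm_mul]
          have hn1 := Finset.ne_of_mem_erase hn
          have hn2 := Finset.mem_of_mem_erase hn
          rw [Fintype.mem_piFinset] at hn2
          have h3 : ‖∫ x in p..q, e (∑ k : {k // k ∈ I}, n k * u k x)‖ ≤ ε := by
            have h4 := hexp (fun k => if hk : k ∈ I then n ⟨k, hk⟩ else 0) (fun k hk => by
                have := hn2 ⟨k, hk⟩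
                simp only [ht, Finset.mem_Icc] at this
                simp only [hk, dite_true]
                exact abs_le.mpr this) (by
                by_contra hcon
                push Not at hcon
                apply hn1
                funext k
                have := hcon k.1 k.2
                simpa [k.2] using this)
            have h5 : ∀ x, ∑ k ∈ I, (((if hk : k ∈ I then n ⟨k, hk⟩ else 0 : ℤ)) : ℝ) * u k x = ∑ k : {k // k ∈ I}, n k * u k x := by
              intro x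
              rw [← Finset.sum_coe_sort I]
              refine Finset.sum_congr rfl fun k _ => ?_
              simp [k.2]
            simp only [h5] at h4
            exact h4
          calc ‖∏ k : {k // k ∈ I}, c k (n k)‖ * ‖∫ x in p..q, e (∑ k : {k // k ∈ I}, n k * u k x)‖ ≤ 1 * ε :=
                mul_le_mul (hcn n) h3 (norm_nonneg _) zero_le_one
            _ = ε := one_mul _
      _ ≤ (Fintype.piFinset t).card * ε := by
          rw [Finset.sum_const, nsmul_eq_mul]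
          refine mul_le_mul_of_nonneg_right ?_ hε
          exact_mod_cast Finset.card_le_card (Finset.erase_subset _ _)
      _ = (2 * (N : ℝ) + 1) ^ I.card * ε := by
          rw [hcard]
          push_cast
          ring
  -- comparison of the products
  have hexp4 : (1 + δ) ^ I.card ≤ 2 := by
    have h1 : (1 + δ) ^ I.card ≤ Real.exp (I.card * δ) := by
      rw [mul_comm, Real.exp_mul]
      have : (1 + δ) ≤ Real.exp δ := by linarith [Real.add_one_le_exp δ]
      rw [Real.rpow_natCast]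
      exact pow_le_pow_left₀ (by linarith) this _
    have h2 : Real.exp (I.card * δ) ≤ Real.exp (1 / 4) := Real.exp_le_exp.mpr hδI
    have h3 : Real.exp (1 / 4) ≤ 2 := by
      have := Real.exp_bound_div_one_sub_of_interval (x := 1 / 4) (by norm_num) (by norm_num)
      norm_num at this ⊢
      linarith
    linarith
  have hPn : ∀ k ∈ I, ∀ y, ‖P k y‖ ≤ 1 + δ := by
    intro k hk y
    have h1 := hgc k hk y
    have h2 : ‖(g k y : ℂ)‖ ≤ 1 := by
      rw [Complex.norm_real, Real.norm_eq_abs, abs_of_nonneg (hg1 k hk y).1]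
      exact (hg1 k hk y).2
    have h3 : P k y = (g k y : ℂ) - ((g k y : ℂ) - P k y) := by ring
    rw [h3]
    exact (norm_sub_le _ _).trans (add_le_add h2 h1)
  have hcmp : ∀ x, ‖∏ k ∈ I, (g k (u k x) : ℂ) - ∏ k ∈ I, P k (u k x)‖ ≤ 2 * I.card * δ := by
    intro x
    have h1 := prod_sub I (fun k => (g k (u k x) : ℂ)) (fun k => P k (u k x)) hδ.le (by linarith : 1 ≤ 1 + δ)
      (fun k hk => by
        rw [Complex.norm_real, Real.norm_eq_abs, abs_of_nonneg (hg1 k hk _).1]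
        exact (hg1 k hk _).2) (fun k hk => hPn k hk _) (fun k hk => hgc k hk _)
    refine h1.trans ?_
    have : (I.card : ℝ) * δ * (1 + δ) ^ I.card ≤ I.card * δ * 2 := mul_le_mul_of_nonneg_left hexp4 (by positivity)
    linarith
  have hw' : ‖∏ k ∈ I, (w k : ℂ) - ∏ k ∈ I, c k 0‖ ≤ I.card * (2 * δ) := by
    have h1 := prod_sub I (fun k => (w k : ℂ)) (fun k => c k 0) (by linarith : 0 ≤ 2 * δ) le_rfl
      (fun k hk => by
        rw [Complex.norm_real, Real.norm_eq_abs, abs_of_nonneg (hw k hk).1]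
        exact (hw k hk).2) (fun k hk => hc k hk _) (fun k hk => by
          rw [← norm_neg]
          have := hcw k hk
          rwa [neg_sub])
    simpa using h1
  -- integrability
  have hgm : Measurable fun x => ∏ k ∈ I, g k (u k x) := Finset.measurable_prod _ fun k hk => (hg k hk).comp (hu k hk)
  have hgi : IntervalIntegrable (fun x => (((∏ k ∈ I, g k (u k x) : ℝ)) : ℂ)) volume p q := by
    refine ⟨?_, ?_⟩ <;>
    · refine MeasureTheory.Measure.integrableOn_of_bounded (M := 1) (by simp) (Complex.measurable_ofReal.comp hgm).aestronglyMeasurable ?_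
      refine Filter.Eventually.of_forall fun x => ?_
      rw [Complex.norm_real, Real.norm_eq_abs, Finset.abs_prod]
      refine Finset.prod_le_one (fun k _ => abs_nonneg _) fun k hk => ?_
      rw [abs_of_nonneg (hg1 k hk _).1]
      exact (hg1 k hk _).2
  have hPi : IntervalIntegrable (fun x => ∏ k ∈ I, P k (u k x)) volume p q := by
    simp only [hexpand]
    have h1 := IntervalIntegrable.sum (Fintype.piFinset t) (f := fun n x => (∏ k : {k // k ∈ I}, c k (n k)) * e (∑ k : {k // k ∈ I}, n k * u k x))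
      (fun n _ => (e_ii (hum n) p q).const_mul _)
    have e3 : (fun x => ∑ n ∈ Fintype.piFinset t, (∏ k : {k // k ∈ I}, c k (n k)) * e (∑ k : {k // k ∈ I}, n k * u k x)) =
        ∑ n ∈ Fintype.piFinset t, fun x => (∏ k : {k // k ∈ I}, c k (n k)) * e (∑ k : {k // k ∈ I}, n k * u k x) := by
      funext x
      rw [Finset.sum_apply]
    rw [e3]
    exact h1
  have hfin1 : ‖(∫ x in p..q, ((∏ k ∈ I, g k (u k x) : ℝ) : ℂ)) - ∫ x in p..q, ∏ k ∈ I, P k (u k x)‖ ≤ 2 * I.card * δ * (q - p) := by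
    rw [← intervalIntegral.integral_sub hgi hPi]
    have h1 := intervalIntegral.norm_integral_le_of_norm_le_const (a := p) (b := q) (C := 2 * I.card * δ)
      (f := fun x => ((∏ k ∈ I, g k (u k x) : ℝ) : ℂ) - ∏ k ∈ I, P k (u k x)) (fun x _ => by
        have := hcmp x
        push_cast
        exact this)
    rwa [abs_of_nonneg (by linarith : 0 ≤ q - p)] at h1
  have hfin : ‖(((∫ x in p..q, ∏ k ∈ I, g k (u k x)) - (q - p) * ∏ k ∈ I, w k : ℝ) : ℂ)‖ ≤
      8 * I.card * δ * (q - p) + (2 * (N : ℝ) + 1) ^ I.card * ε := by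
    have e1 : (((∫ x in p..q, ∏ k ∈ I, g k (u k x)) - (q - p) * ∏ k ∈ I, w k : ℝ) : ℂ) =
        ((∫ x in p..q, ((∏ k ∈ I, g k (u k x) : ℝ) : ℂ)) - ∫ x in p..q, ∏ k ∈ I, P k (u k x)) +
        ((∫ x in p..q, ∏ k ∈ I, P k (u k x)) - (q - p) * ∏ k ∈ I, c k 0) -
        ((q - p : ℝ) : ℂ) * (∏ k ∈ I, (w k : ℂ) - ∏ k ∈ I, c k 0) := by
      rw [intervalIntegral.integral_ofReal]
      push_cast
      ring
    rw [e1]
    refine (norm_sub_le _ _).trans ((add_le_add (norm_add_le _ _) le_rfl).trans ?_)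
    have h5 : ‖((q - p : ℝ) : ℂ) * (∏ k ∈ I, (w k : ℂ) - ∏ k ∈ I, c k 0)‖ ≤ (q - p) * (I.card * (2 * δ)) := by
      rw [norm_mul, Complex.norm_real, Real.norm_eq_abs, abs_of_nonneg (by linarith : 0 ≤ q - p)]
      exact mul_le_mul_of_nonneg_left hw' (by linarith)
    have h6 : 0 ≤ (I.card : ℝ) * δ * (q - p) := by
      have : 0 ≤ q - p := by linarith
      positivity
    nlinarith [hfin1, hbig, h5, h6]
  rwa [Complex.norm_real, Real.norm_eq_abs] at hfin

/-- boxes from exponential integrals, over the approximation of an interval by trigonometric polynomials -/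
theorem box_exp_of (hT : ∀ {α γ δ : ℝ}, 0 ≤ α → α ≤ γ → γ ≤ 1 → 0 < δ → δ ≤ 1 / 8 → ∀ {N : ℕ}, 1 ≤ N →
    ∃ (g g' : ℝ → ℝ) (c c' : ℤ → ℂ), Measurable g ∧ Measurable g' ∧ (∀ y, 0 ≤ g y ∧ g y ≤ bx α γ y ∧ bx α γ y ≤ g' y ∧ g' y ≤ 1) ∧
      (∀ y, ‖(g y : ℂ) - ∑ m ∈ Finset.Icc (-(N : ℤ)) N, c m * e (m * y)‖ ≤ 4 / (δ * N)) ∧
      (∀ y, ‖(g' y : ℂ) - ∑ m ∈ Finset.Icc (-(N : ℤ)) N, c' m * e (m * y)‖ ≤ 4 / (δ * N)) ∧
      (∀ m, ‖c m‖ ≤ 1) ∧ (∀ m, ‖c' m‖ ≤ 1) ∧ ‖c 0 - ((γ - α : ℝ) : ℂ)‖ ≤ 2 * δ ∧ ‖c' 0 - ((γ - α : ℝ) : ℂ)‖ ≤ 2 * δ)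
    {ι : Type} [DecidableEq ι] (I : Finset ι) (u : ι → ℝ → ℝ) {p q δ ε : ℝ} (hpq : p ≤ q) (hu : ∀ k ∈ I, Measurable (u k))
    (hδ : 0 < δ) (hδ1 : δ ≤ 1 / 8) (hδI : I.card * δ ≤ 1 / 4) {N : ℕ} (hN : 4 / (δ * N) ≤ δ) (hN1 : 1 ≤ N) (hε : 0 ≤ ε)
    (hexp : ∀ m : ι → ℤ, (∀ k ∈ I, |m k| ≤ N) → (∃ k ∈ I, m k ≠ 0) → ‖∫ x in p..q, e (∑ k ∈ I, m k * u k x)‖ ≤ ε)
    (α γ : ι → ℝ) (h : ∀ k ∈ I, 0 ≤ α k ∧ α k ≤ γ k ∧ γ k ≤ 1) :
    |(∫ x in p..q, ∏ k ∈ I, bx (α k) (γ k) (u k x)) - (q - p) * ∏ k ∈ I, (γ k - α k)| ≤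
      8 * I.card * δ * (q - p) + (2 * (N : ℝ) + 1) ^ I.card * ε := by
  have H := fun k (hk : k ∈ I) => hT (h k hk).1 (h k hk).2.1 (h k hk).2.2 hδ hδ1 hN1
  choose! g g' c c' hgm hgm' hb hgc hgc' hc hc' hc0 hc0' using H
  have hlo := core I u hpq hu hδ hδI hε hexp g c (fun k => γ k - α k) hgm
    (fun k hk y => ⟨(hb k hk y).1, (hb k hk y).2.1.trans ((hb k hk y).2.2.1.trans (hb k hk y).2.2.2)⟩)
    (fun k hk y => (hgc k hk y).trans hN) hc (fun k hk => ⟨by linarith [(h k hk).2.1], by linarith [(h k hk).1, (h k hk).2.2]⟩) hc0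
  have hup := core I u hpq hu hδ hδI hε hexp g' c' (fun k => γ k - α k) hgm'
    (fun k hk y => ⟨(hb k hk y).1.trans ((hb k hk y).2.1.trans (hb k hk y).2.2.1), (hb k hk y).2.2.2⟩)
    (fun k hk y => (hgc' k hk y).trans hN) hc' (fun k hk => ⟨by linarith [(h k hk).2.1], by linarith [(h k hk).1, (h k hk).2.2]⟩) hc0'
  have ii : ∀ f : ι → ℝ → ℝ, (∀ k ∈ I, Measurable (f k)) → (∀ k ∈ I, ∀ y, 0 ≤ f k y ∧ f k y ≤ 1) →
      IntervalIntegrable (fun x => ∏ k ∈ I, f k (u k x)) volume p q := by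
    intro f hf hf1
    have hm : Measurable fun x => ∏ k ∈ I, f k (u k x) := Finset.measurable_prod _ fun k hk => (hf k hk).comp (hu k hk)
    refine ⟨?_, ?_⟩ <;>
    · refine MeasureTheory.Measure.integrableOn_of_bounded (M := 1) (by simp) hm.aestronglyMeasurable ?_
      refine Filter.Eventually.of_forall fun x => ?_
      rw [Real.norm_eq_abs, Finset.abs_prod]
      refine Finset.prod_le_one (fun k _ => abs_nonneg _) fun k hk => ?_
      rw [abs_of_nonneg (hf1 k hk _).1]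
      exact (hf1 k hk _).2
  have hbm : ∀ a b : ℝ, Measurable (bx a b) := fun a b =>
    Measurable.ite ((measurableSet_le measurable_const measurable_fract).inter (measurableSet_lt measurable_fract measurable_const))
      measurable_const measurable_const
  have hb01 : ∀ a b y : ℝ, 0 ≤ bx a b y ∧ bx a b y ≤ 1 := by
    intro a b y
    unfold bx
    split_ifs <;> norm_num
  have i1 := ii g hgm (fun k hk y => ⟨(hb k hk y).1, (hb k hk y).2.1.trans ((hb k hk y).2.2.1.trans (hb k hk y).2.2.2)⟩)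
  have i2 := ii g' hgm' (fun k hk y => ⟨(hb k hk y).1.trans ((hb k hk y).2.1.trans (hb k hk y).2.2.1), (hb k hk y).2.2.2⟩)
  have i3 := ii (fun k => bx (α k) (γ k)) (fun k _ => hbm _ _) (fun k _ y => hb01 _ _ y)
  have m1 : ∫ x in p..q, ∏ k ∈ I, g k (u k x) ≤ ∫ x in p..q, ∏ k ∈ I, bx (α k) (γ k) (u k x) :=
    intervalIntegral.integral_mono hpq i1 i3 fun x => Finset.prod_le_prod (fun k hk => (hb k hk _).1) fun k hk => (hb k hk _).2.1
  have m2 : ∫ x in p..q, ∏ k ∈ I, bx (α k) (γ k) (u k x) ≤ ∫ x in p..q, ∏ k ∈ I, g' k (u k x) :=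
    intervalIntegral.integral_mono hpq i3 i2 fun x => Finset.prod_le_prod (fun k _ => (hb01 _ _ _).1) fun k hk => (hb k hk _).2.2.1
  rw [abs_le] at hlo hup ⊢
  constructor <;> linarith [hlo.1, hup.2]

end Pool.Agent.Helper77.LD6
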